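import Pool.Agent.V11229.CutCore

/-!
# The unweighted red-blue `s`-`t` cut problem in undirected graphs is `NP`-complete
-/

namespace Pool.Agent.Results.MP_ad21dd_lc.RedBlueCut

open Pool.Agent.NPC Pool.Agent.V11229

/-- A finite simple graph with vertex set `{0, …, n-1}` whose edges are coloured red and blue:
`col u v` is `some true` if `uv` is a red edge, `some false` if `uv` is a blue edge, and `none` if
`uv` is not an edge. -/
structure RBGraph where
  /-- the number of vertices -/
  n : ℕ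
  /-- the coloured adjacency matrix -/
  col : Fin n → Fin n → Option Bool
  symm : ∀ u v, col u v = col v u
  loopless : ∀ v, col v v = none

/-- An input of the red-blue `s`-`t` cut problem. -/
structure Input where
  /-- the coloured graph -/
  G : RBGraph
  /-- the source -/
  s : Fin G.n
  /-- the sink -/
  t : Fin G.n
  ne : s ≠ t
  /-- the number of red edges allowed -/
  r : ℕ
  /-- the number of blue edges allowed -/
  b : ℕ

/-- The number of edges of colour `c` in the cut `δ(X)`: edges with one end in `X` and the other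
end outside of `X`. -/
noncomputable def cutSize {V : Type} (col : V → V → Option Bool) (c : Bool) (X : Set V) : ℕ :=
  {e : Sym2 V | ∃ u v, e = s(u, v) ∧ u ∈ X ∧ v ∉ X ∧ col u v = some c}.ncard

/-- Some `s`-`t` cut has at most `r` red edges and at most `b` blue edges. -/
def RedBlueCut (I : Input) : Prop :=
  ∃ X : Set (Fin I.G.n), I.s ∈ X ∧ I.t ∉ X ∧ cutSize I.G.col true X ≤ I.r ∧
    cutSize I.G.col false X ≤ I.b

/-- An input as a tuple: the coloured adjacency matrix, the two vertices and the two numbers. -/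
def Input.code (I : Input) : LMat (Option Bool) × ℕ × ℕ × ℕ × ℕ :=
  (⟨I.G.n, I.G.col⟩, I.s, I.t, I.r, I.b)

theorem Input.code_injective : Function.Injective Input.code := by
  rintro ⟨⟨n, col, h1, h2⟩, s, t, hst, r, b⟩ ⟨⟨n', col', h1', h2'⟩, s', t', hst', r', b'⟩ h
  simp only [Input.code, Prod.mk.injEq, LMat.mk.injEq] at h
  obtain ⟨⟨rfl, h3⟩, h4, h5, rfl, rfl⟩ := h
  have h3' := eq_of_heq h3
  subst h3'
  have h4' := Fin.ext h4
  have h5' := Fin.ext h5
  subst h4' h5'
  rfl

/-- An input is encoded by its coloured adjacency matrix, the two vertices and the two numbers (in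
binary). -/
instance : TEnc Input := ⟨fun I => toT I.code, fun _ _ h => Input.code_injective (TEnc.inj h)⟩

/-! ### The size of a cut -/

theorem cutSize_eq {V : Type} (col : V → V → Option Bool) (c : Bool) (X : Set V) :
    cutSize col c X = outCount (fun u v => col u v = some c) X := by
  unfold cutSize outCount
  rw [← Set.InjOn.ncard_image (f := fun p : V × V => s(p.1, p.2))]
  · congr 1
    ext e
    simp only [Set.mem_ofPred_eq, Set.mem_image, Prod.exists]
    constructor
    · rintro ⟨u, v, rfl, h1, h2, h3⟩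
      exact ⟨u, v, ⟨h1, h2, h3⟩, rfl⟩
    · rintro ⟨u, v, ⟨h1, h2, h3⟩, rfl⟩
      exact ⟨u, v, rfl, h1, h2, h3⟩
  · rintro ⟨u, v⟩ ⟨h1, h2, _⟩ ⟨u', v'⟩ ⟨h1', h2', _⟩ h
    simp only [Sym2.eq, Sym2.rel_iff', Prod.mk.injEq, Prod.swap_prod_mk] at h
    rcases h with h | h
    · exact Prod.ext h.1 h.2
    · exfalso
      simp only at h1 h2 h1' h2'
      rw [← h.1] at h2'
      exact h2' h1

/-- The problem on an arbitrary vertex set. -/
def STCut {V : Type} (col : V → V → Option Bool) (s t : V) (r b : ℕ) : Prop :=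
  ∃ X : Set V, s ∈ X ∧ t ∉ X ∧ outCount (fun u v => col u v = some true) X ≤ r ∧
    outCount (fun u v => col u v = some false) X ≤ b

theorem redBlueCut_iff (I : Input) : RedBlueCut I ↔ STCut I.G.col I.s I.t I.r I.b := by
  unfold RedBlueCut STCut
  simp only [cutSize_eq]

theorem STCut.equiv {V W : Type} (e : V ≃ W) {col : V → V → Option Bool}
    {col' : W → W → Option Bool} (h : ∀ x y, col x y = col' (e x) (e y)) {s t : V} {r b : ℕ}
    (hc : STCut col s t r b) : STCut col' (e s) (e t) r b := by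
  obtain ⟨X, h1, h2, h3, h4⟩ := hc
  refine ⟨e '' X, ⟨s, h1, rfl⟩, ?_, ?_, ?_⟩
  · rintro ⟨z, hz, hz'⟩
    exact h2 (e.injective hz' ▸ hz)
  · rw [← outCount_equiv e (fun u v => col u v = some true) _ (fun x y => by rw [h])]
    exact h3
  · rw [← outCount_equiv e (fun u v => col u v = some false) _ (fun x y => by rw [h])]
    exact h4

theorem STCut.equiv_iff {V W : Type} (e : V ≃ W) {col : V → V → Option Bool}
    {col' : W → W → Option Bool} (h : ∀ x y, col x y = col' (e x) (e y)) {s t : V} {s' t' : W}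
    {r b : ℕ} (hs : e s = s') (ht : e t = t') : STCut col s t r b ↔ STCut col' s' t' r b := by
  subst hs ht
  constructor
  · exact STCut.equiv e h
  · intro hc
    have := STCut.equiv e.symm (col := col') (col' := col) (fun x y => by
      rw [h, e.apply_symm_apply, e.apply_symm_apply]) hc
    simpa using this

/-! ### Membership in `NP` -/

/-- Correctness of the code of an input. -/
def ok (x : LMat (Option Bool) × ℕ × ℕ × ℕ × ℕ) : Bool :=
  (List.range x.1.n).all (fun i => (List.range x.1.n).all (fun j =>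
    decide (x.1.ent none i j = x.1.ent none j i) &&
      (!decide (i = j) || decide (x.1.ent none i j = none)))) &&
  (decide (x.2.1 < x.1.n) && decide (x.2.2.1 < x.1.n) && !decide (x.2.1 = x.2.2.1))

/-- The verifier: a set of vertices is given by a list of truth values. -/
def ver (x : (LMat (Option Bool) × ℕ × ℕ × ℕ × ℕ) × List Bool) : Bool :=
  (x.2.getD x.1.2.1 false && !(x.2.getD x.1.2.2.1 false)) &&
  (decide (cutL x.1.1 true x.2 ≤ x.1.2.2.2.1) && decide (cutL x.1.1 false x.2 ≤ x.1.2.2.2.2))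

theorem ok_poly : Poly ok := by
  unfold ok
  refine NPC.Poly.and ?_ (by fun_prop)
  refine Poly.allRange (n := fun x : LMat (Option Bool) × ℕ × ℕ × ℕ × ℕ => x.1.n)
    (p := fun x i => (List.range x.1.n).all (fun j =>
    decide (x.1.ent none i j = x.1.ent none j i) &&
      (!decide (i = j) || decide (x.1.ent none i j = none))))
    (UPoly.lmat_n (by fun_prop)) ?_
  exact Poly.allRange (n := fun x : (LMat (Option Bool) × ℕ × ℕ × ℕ × ℕ) × ℕ => x.1.1.n)
    (p := fun x j => decide (x.1.1.ent none x.2 j = x.1.1.ent none j x.2) &&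
      (!decide (x.2 = j) || decide (x.1.1.ent none x.2 j = none)))
    (UPoly.lmat_n (by fun_prop)) (by fun_prop)

theorem ver_poly : Poly ver := by
  unfold ver
  fun_prop

/-- The problem is in `NP`. -/
theorem inNPP_redBlueCut : InNPP RedBlueCut := by
  refine inNPP_sub Input.code (fun _ => rfl) ver_poly (4 * Polynomial.X + 1) ok ok_poly ?_ ?_ ?_
  · rintro ⟨⟨n, f⟩, s, t, r, b⟩ h
    simp only [ok, Bool.and_eq_true, List.all_eq_true, List.mem_range, decide_eq_true_eq,
      Bool.or_eq_true, Bool.not_eq_true', decide_eq_false_iff_not] at h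
    obtain ⟨h1, ⟨hs, ht⟩, hst⟩ := h
    refine ⟨⟨⟨n, f, fun u v => ?_, fun v => ?_⟩, ⟨s, hs⟩, ⟨t, ht⟩, fun h => hst ?_, r, b⟩, rfl⟩
    · have := (h1 u u.isLt v v.isLt).1
      rwa [LMat.ent_fin ⟨n, f⟩ none u v, LMat.ent_fin ⟨n, f⟩ none v u] at this
    · have := (h1 v v.isLt v v.isLt).2
      rw [LMat.ent_fin ⟨n, f⟩ none v v] at this
      simpa using this
    · exact congrArg Fin.val h
  · rintro ⟨⟨n, col, h1, h2⟩, s, t, hst, r, b⟩
    simp only [ok, Input.code, Bool.and_eq_true, List.all_eq_true, List.mem_range,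
      decide_eq_true_eq, Bool.or_eq_true, Bool.not_eq_true', decide_eq_false_iff_not]
    refine ⟨fun i hi j hj => ⟨?_, ?_⟩, ⟨s.isLt, t.isLt⟩, fun h => hst (Fin.ext h)⟩
    · rw [LMat.ent_lt ⟨n, col⟩ none hi hj, LMat.ent_lt ⟨n, col⟩ none hj hi]
      exact h1 _ _
    · by_cases hij : i = j
      · right
        subst hij
        rw [LMat.ent_lt ⟨n, col⟩ none hi hj]
        exact h2 _
      · left
        exact hij
  · intro I
    rw [redBlueCut_iff]
    constructor
    · rintro ⟨X, h1, h2, h3, h4⟩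
      refine ⟨indL X, ?_, ?_⟩
      · have e1 := sz_indL X
        have e3 : I.G.n < sz (⟨I.G.n, I.G.col⟩ : LMat (Option Bool)) := by
          have := length_lt_sz (⟨I.G.n, I.G.col⟩ : LMat (Option Bool)).rows
          rw [LMat.length_rows] at this
          exact this
        have e4 : sz (⟨I.G.n, I.G.col⟩ : LMat (Option Bool)) ≤ sz I.code := by
          unfold Input.code
          rw [sz_pair]
          omega
        simp only [Polynomial.eval_add, Polynomial.eval_mul, Polynomial.eval_X,
          Polynomial.eval_ofNat, Polynomial.eval_one]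
        omega
      · simp only [ver, Input.code, Bool.and_eq_true, decide_eq_true_eq, Bool.not_eq_true']
        refine ⟨⟨(indL_getD X _).2 h1, ?_⟩, ?_, ?_⟩
        · have := (indL_getD X I.t).not.2 h2
          simpa using this
        · rw [cutL_eq]
          simp only [indL_set]
          exact h3
        · rw [cutL_eq]
          simp only [indL_set]
          exact h4
    · rintro ⟨l, _, h⟩
      simp only [ver, Input.code, Bool.and_eq_true, decide_eq_true_eq, Bool.not_eq_true',
        cutL_eq] at h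
      obtain ⟨⟨h1, h2⟩, h3, h4⟩ := h
      refine ⟨{v : Fin I.G.n | l.getD v false = true}, h1, ?_, h3, h4⟩
      simp only [Set.mem_ofPred_eq, h2]
      simp

/-! ### The reduction -/

section Red

open Finset

/-- labels of the vertices: `(0,0,0)` is `s`, `(1,0,0)` is `t`, `(2,v,0)` is the copy of `v`, and
`(3,v,j)`, `(4,v,j)` are the middle vertices -/
abbrev Lab : Type := ℕ × ℕ × ℕ

/-- the middle vertices in use -/
def okm (M : LMat Bool) (y : Lab) : Bool :=
  (decide (y.1 = 3) && !(M.ent false y.2.1 y.2.2)) || decide (y.1 = 4)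

/-- red edges, in one direction -/
def redB (M : LMat Bool) (x y : Lab) : Bool :=
  (decide (x.1 = 2) && (decide (y.1 = 2) && (!(decide (x.2.1 = y.2.1)) &&
    M.ent false x.2.1 y.2.1))) ||
  ((decide (x.1 = 2) && (okm M y && decide (x.2.1 = y.2.1))) || (okm M x && decide (y.1 = 1)))

/-- blue edges, in one direction -/
def blueB (x y : Lab) : Bool := decide (x.1 = 0) && (decide (y.1 = 1) || decide (y.1 = 2))

/-- the colouring -/
def lcol (M : LMat Bool) (x y : Lab) : Option Bool :=
  if redB M x y || redB M y x then some true else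
    if blueB x y || blueB y x then some false else none

theorem lcol_symm (M : LMat Bool) (x y : Lab) : lcol M x y = lcol M y x := by
  unfold lcol
  rw [Bool.or_comm (redB M x y), Bool.or_comm (blueB x y)]

theorem lcol_self (M : LMat Bool) (x : Lab) : lcol M x x = none := by
  have h1 : redB M x x = false := by
    unfold redB okm
    obtain ⟨a, b, c⟩ := x
    simp only
    by_cases h2 : a = 2
    · subst h2; simp
    · by_cases h3 : a = 1
      · subst h3; simp
      · simp [h2, h3]
  have h2 : blueB x x = false := by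
    unfold blueB
    obtain ⟨a, b, c⟩ := x
    by_cases h2 : a = 0
    · subst h2; simp
    · simp [h2]
  simp [lcol, h1, h2]

/-- the list of the vertices -/
def vsL (n : ℕ) : List Lab :=
  (0, 0, 0) :: (1, 0, 0) :: ((List.range n).map (fun v => (2, v, 0)) ++
    ([3, 4] ×ˢ (List.range n ×ˢ List.range n)))

theorem vsL_two (n : ℕ) : 1 < (vsL n).length := by simp [vsL]

/-- the instance of the cut problem -/
def red (I : LMat Bool × ℕ) : Input where
  G := ⟨(vsL I.1.n).length, fun i j => lcol I.1 (vsL I.1.n)[i] (vsL I.1.n)[j],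
    fun _ _ => lcol_symm _ _ _, fun _ => lcol_self _ _⟩
  s := ⟨0, Nat.zero_lt_of_lt (vsL_two I.1.n)⟩
  t := ⟨1, vsL_two I.1.n⟩
  ne := by simp
  r := 2 * I.1.n * I.2 + I.2 - I.2 * I.2
  b := I.1.n + 1 - I.2

theorem vsL_poly : Poly (fun I : LMat Bool × ℕ => vsL I.1.n) := by
  unfold vsL
  have h : Poly (fun I : LMat Bool × ℕ => List.range I.1.n) :=
    UPoly.range (UPoly.lmat_n (by fun_prop))
  fun_prop

theorem redB_poly {α : Type} [TEnc α] {M : α → LMat Bool} {x y : α → Lab} (hM : Poly M)
    (hx : Poly x) (hy : Poly y) : Poly (fun a => redB (M a) (x a) (y a)) := by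
  unfold redB okm
  fun_prop

attribute [local fun_prop] redB_poly

theorem lcol_poly {α : Type} [TEnc α] {M : α → LMat Bool} {x y : α → Lab} (hM : Poly M)
    (hx : Poly x) (hy : Poly y) : Poly (fun a => lcol (M a) (x a) (y a)) := by
  unfold lcol blueB
  fun_prop

theorem red_poly : Poly red := by
  have h1 : Poly (fun I : LMat Bool × ℕ => (red I).code) := by
    have h2 : Poly (fun I : LMat Bool × ℕ => LMat.ofList (vsL I.1.n) (lcol I.1)) :=
      Poly.ofList (ad := fun I : LMat Bool × ℕ => lcol I.1) vsL_poly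
        (lcol_poly (by fun_prop) (by fun_prop) (by fun_prop))
    have h3 : Poly (fun I : LMat Bool × ℕ => 2 * I.1.n * I.2 + I.2 - I.2 * I.2) := by fun_prop
    have h4 : Poly (fun I : LMat Bool × ℕ => I.1.n + 1 - I.2) := by fun_prop
    exact NPC.Poly.pair h2 (NPC.Poly.pair (NPC.Poly.const 0) (NPC.Poly.pair (NPC.Poly.const 1)
      (NPC.Poly.pair h3 h4)))
  exact h1

/-- the vertices, as a type -/
abbrev VT (n : ℕ) : Type := Bool ⊕ (Fin n ⊕ (Bool × Fin n × Fin n))

/-- the labels -/
def lab {n : ℕ} : VT n → Lab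
  | Sum.inl true => (0, 0, 0)
  | Sum.inl false => (1, 0, 0)
  | Sum.inr (Sum.inl v) => (2, v, 0)
  | Sum.inr (Sum.inr (c, v, j)) => (if c = true then 4 else 3, v, j)

theorem lab_injective {n : ℕ} : Function.Injective (lab : VT n → Lab) := by
  rintro ((_ | _) | (v | ⟨(_ | _), v, j⟩)) ((_ | _) | (v' | ⟨(_ | _), v', j'⟩)) h <;>
    simp [lab] at h ⊢
  · exact Fin.ext h
  · exact ⟨Fin.ext h.1, Fin.ext h.2⟩
  · exact ⟨Fin.ext h.1, Fin.ext h.2⟩

theorem vsL_nodup (n : ℕ) : (vsL n).Nodup := by
  unfold vsL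
  rw [List.nodup_cons, List.nodup_cons, List.nodup_append]
  refine ⟨?_, ?_, ?_, ?_, ?_⟩
  · simp
  · simp
  · refine List.Nodup.map ?_ List.nodup_range
    intro a b h
    simpa using h
  · exact List.Nodup.product (by simp) (List.Nodup.product List.nodup_range List.nodup_range)
  · intro a ha b hb
    simp only [List.mem_map, List.mem_range] at ha
    obtain ⟨v, _, rfl⟩ := ha
    rintro rfl
    simp at hb

theorem mem_vsL {n : ℕ} (z : Lab) : z ∈ vsL n ↔ ∃ x : VT n, lab x = z := by
  constructor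
  · intro h
    unfold vsL at h
    simp only [List.mem_cons, List.mem_append, List.mem_map, List.mem_range] at h
    rcases h with h | h | h | h
    · exact ⟨Sum.inl true, h.symm⟩
    · exact ⟨Sum.inl false, h.symm⟩
    · obtain ⟨v, hv, rfl⟩ := h
      exact ⟨Sum.inr (Sum.inl ⟨v, hv⟩), rfl⟩
    · obtain ⟨a, v, j⟩ := z
      simp only [List.mem_product, List.mem_cons, List.not_mem_nil, or_false, List.mem_range] at h
      obtain ⟨h1, h2, h3⟩ := h
      rcases h1 with rfl | rfl
      · exact ⟨Sum.inr (Sum.inr (false, ⟨v, h2⟩, ⟨j, h3⟩)), by simp [lab]⟩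
      · exact ⟨Sum.inr (Sum.inr (true, ⟨v, h2⟩, ⟨j, h3⟩)), by simp [lab]⟩
  · rintro ⟨x, rfl⟩
    unfold vsL
    simp only [List.mem_cons, List.mem_append, List.mem_map, List.mem_range]
    rcases x with (_ | _) | (v | ⟨c, v, j⟩)
    · right; left; rfl
    · left; rfl
    · right; right; left
      exact ⟨v, v.isLt, rfl⟩
    · right; right; right
      refine List.mem_product.2 ⟨?_, List.mem_product.2 ⟨List.mem_range.2 v.isLt,
        List.mem_range.2 j.isLt⟩⟩
      cases c <;> simp

variable (M : LMat Bool)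

/-- red edges between the vertices -/
def RR (x y : VT M.n) : Prop := lcol M (lab x) (lab y) = some true

/-- blue edges between the vertices -/
def BB (x y : VT M.n) : Prop := lcol M (lab x) (lab y) = some false

/-- the middle vertices in use -/
def okp (c : Bool) (v j : Fin M.n) : Prop := c = true ∨ M.f v j = false

variable {M}

theorem RR_vv (h : IsAdj M) (v w : Fin M.n) :
    RR M (Sum.inr (Sum.inl v)) (Sum.inr (Sum.inl w)) ↔ M.f v w = true := by
  have h1 := LMat.ent_fin M false v w
  have h2 := LMat.ent_fin M false w v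
  simp only [RR, lcol, redB, okm, blueB, lab, h1, h2]
  rw [h.1 w v]
  by_cases hvw : v = w
  · subst hvw
    simp [h.2 v]
  · have h3 : (v : ℕ) ≠ w := fun h => hvw (Fin.ext h)
    cases M.f v w <;> simp [h3, h3.symm]

theorem RR_vm (v : Fin M.n) (c : Bool) (v' j : Fin M.n) :
    RR M (Sum.inr (Sum.inl v)) (Sum.inr (Sum.inr (c, v', j))) ↔ v = v' ∧ okp M c v' j := by
  have h1 := LMat.ent_fin M false v' j
  simp only [RR, lcol, redB, okm, blueB, lab, okp, h1, Fin.ext_iff]
  by_cases hvv : (v : ℕ) = v'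
  · cases c <;> cases M.f v' j <;> simp [hvv]
  · cases c <;> cases M.f v' j <;> simp [hvv]

theorem RR_mv (v : Fin M.n) (c : Bool) (v' j : Fin M.n) :
    RR M (Sum.inr (Sum.inr (c, v', j))) (Sum.inr (Sum.inl v)) ↔ v = v' ∧ okp M c v' j := by
  rw [← RR_vm]
  unfold RR
  rw [lcol_symm]

theorem RR_mt (c : Bool) (v' j : Fin M.n) :
    RR M (Sum.inr (Sum.inr (c, v', j))) (Sum.inl false) ↔ okp M c v' j := by
  have h1 := LMat.ent_fin M false v' j
  simp only [RR, lcol, redB, okm, blueB, lab, okp, h1]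
  cases c
  · cases M.f v' j <;> simp
  · simp

theorem RR_sx (x : VT M.n) : ¬ RR M (Sum.inl true) x := by
  rcases x with (_ | _) | (v | ⟨(_ | _), v, j⟩) <;>
    simp [RR, lcol, redB, okm, blueB, lab]

theorem RR_vt (v : Fin M.n) : ¬ RR M (Sum.inr (Sum.inl v)) (Sum.inl false) := by
  simp [RR, lcol, redB, okm, blueB, lab]

theorem RR_xs (x : VT M.n) : ¬ RR M x (Sum.inl true) := by
  have := RR_sx (M := M) x
  unfold RR at this ⊢
  rwa [lcol_symm]

theorem BB_st : BB M (Sum.inl true) (Sum.inl false) := by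
  simp [BB, lcol, redB, okm, blueB, lab]

theorem BB_sv (v : Fin M.n) : BB M (Sum.inl true) (Sum.inr (Sum.inl v)) := by
  simp [BB, lcol, redB, okm, blueB, lab]

theorem BB_sm (m) : ¬ BB M (Sum.inl true) (Sum.inr (Sum.inr m)) := by
  rcases m with ⟨(_ | _), v, j⟩ <;> simp [BB, lcol, redB, okm, blueB, lab]

theorem BB_sss : ¬ BB M (Sum.inl true) (Sum.inl true) := by
  simp [BB, lcol, redB, okm, blueB, lab]

theorem BB_vx (v : Fin M.n) (x : Bool ⊕ (Fin M.n ⊕ (Bool × Fin M.n × Fin M.n)))
    (hx : x ≠ Sum.inl true) : ¬ BB M (Sum.inr (Sum.inl v)) x := by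
  rcases x with (_ | _) | (v | ⟨(_ | _), v, j⟩)
  · simp [BB, lcol, redB, okm, blueB, lab]
  · exact absurd rfl hx
  all_goals
    simp [BB, lcol, redB, okm, blueB, lab]

open Classical in
/-- A cut with `s` inside and `t` outside has many red edges. -/
theorem cost_le (h : IsAdj M) (X : Set (VT M.n)) (ht : Sum.inl false ∉ X) :
    cost M.f (univ.filter (fun v : Fin M.n => Sum.inr (Sum.inl v) ∈ X)) ≤
      outCount (RR M) X := by
  rw [outCount_eq_sum]
  set g : VT M.n → VT M.n → ℕ := fun x y => if x ∈ X ∧ y ∉ X ∧ RR M x y then 1 else 0 with hg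
  have e1 : ∑ x, ∑ y, g x y ≥ (∑ v, ((∑ w, g (Sum.inr (Sum.inl v)) (Sum.inr (Sum.inl w))) +
      ∑ m, g (Sum.inr (Sum.inl v)) (Sum.inr (Sum.inr m)))) +
      ∑ m, g (Sum.inr (Sum.inr m)) (Sum.inl false) := by
    rw [Fintype.sum_sum_type, Fintype.sum_sum_type]
    have e2 : ∀ x : VT M.n, ∑ y, g x y = (∑ b, g x (Sum.inl b)) +
        ((∑ w, g x (Sum.inr (Sum.inl w))) + ∑ m, g x (Sum.inr (Sum.inr m))) := by
      intro x
      rw [Fintype.sum_sum_type, Fintype.sum_sum_type]
    have e3 : ∑ v, ((∑ w, g (Sum.inr (Sum.inl v)) (Sum.inr (Sum.inl w))) +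
        ∑ m, g (Sum.inr (Sum.inl v)) (Sum.inr (Sum.inr m))) ≤
        ∑ v, ∑ y, g (Sum.inr (Sum.inl v)) y := by
      refine Finset.sum_le_sum fun v _ => ?_
      rw [e2]
      omega
    have e4 : ∑ m, g (Sum.inr (Sum.inr m)) (Sum.inl false) ≤
        ∑ m, ∑ y, g (Sum.inr (Sum.inr m)) y := by
      refine Finset.sum_le_sum fun m _ => ?_
      exact Finset.single_le_sum (f := fun y => g (Sum.inr (Sum.inr m)) y) (fun _ _ => Nat.zero_le _)
        (Finset.mem_univ _)
    omega
  refine le_trans ?_ e1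
  have e5 : ∑ m, g (Sum.inr (Sum.inr m)) (Sum.inl false) =
      ∑ v, ∑ c, ∑ j, g (Sum.inr (Sum.inr (c, v, j))) (Sum.inl false) := by
    simp only [Fintype.sum_prod_type]
    rw [Finset.sum_comm]
  rw [e5, ← Finset.sum_add_distrib]
  unfold cost
  rw [Finset.sum_filter]
  refine Finset.sum_le_sum fun v _ => ?_
  by_cases hv : Sum.inr (Sum.inl v) ∈ X
  · rw [if_pos hv, add_assoc]
    have e6 : (∑ w, if w ∉ univ.filter (fun v : Fin M.n => Sum.inr (Sum.inl v) ∈ X) ∧
        M.f v w = true then 1 else 0) = ∑ w, g (Sum.inr (Sum.inl v)) (Sum.inr (Sum.inl w)) := by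
      refine Finset.sum_congr rfl fun w _ => ?_
      simp only [hg, RR_vv h, hv, true_and, mem_filter, mem_univ]
    have e7 : (∑ w, if M.f v w = false then 1 else 0) + M.n =
        ∑ c, ∑ j, if okp M c v j then 1 else 0 := by
      rw [Fintype.sum_bool]
      simp [okp, add_comm]
    have e8 : ∑ c, ∑ j, (if okp M c v j then 1 else 0) ≤
        ∑ m, g (Sum.inr (Sum.inl v)) (Sum.inr (Sum.inr m)) +
          ∑ c, ∑ j, g (Sum.inr (Sum.inr (c, v, j))) (Sum.inl false) := by
      have e9 : ∑ c, ∑ j, g (Sum.inr (Sum.inl v)) (Sum.inr (Sum.inr (c, v, j))) ≤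
          ∑ m, g (Sum.inr (Sum.inl v)) (Sum.inr (Sum.inr m)) := by
        rw [Fintype.sum_prod_type]
        refine Finset.sum_le_sum fun c _ => ?_
        rw [Fintype.sum_prod_type]
        exact Finset.single_le_sum
          (f := fun v' => ∑ j, g (Sum.inr (Sum.inl v)) (Sum.inr (Sum.inr (c, v', j))))
          (fun _ _ => Nat.zero_le _) (Finset.mem_univ v)
      refine le_trans ?_ (Nat.add_le_add_right e9 _)
      rw [← Finset.sum_add_distrib]
      refine Finset.sum_le_sum fun c _ => ?_
      rw [← Finset.sum_add_distrib]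
      refine Finset.sum_le_sum fun j _ => ?_
      simp only [hg, RR_vm, RR_mt, hv, true_and, ht, not_false_eq_true]
      by_cases h3 : okp M c v j <;> by_cases h4 : (Sum.inr (Sum.inr (c, v, j)) : VT M.n) ∈ X <;>
        simp [h3, h4]
    omega
  · rw [if_neg hv]
    exact Nat.zero_le _

open Classical in
/-- A cut with `s` inside and `t` outside has many blue edges. -/
theorem blue_ge (X : Set (VT M.n)) (hs : Sum.inl true ∈ X) (ht : Sum.inl false ∉ X) :
    M.n + 1 - (univ.filter (fun v : Fin M.n => Sum.inr (Sum.inl v) ∈ X)).card ≤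
      outCount (BB M) X := by
  rw [outCount_eq_sum]
  have h1 : M.n + 1 - (univ.filter (fun v : Fin M.n => Sum.inr (Sum.inl v) ∈ X)).card ≤
      ∑ y, if Sum.inl true ∈ X ∧ y ∉ X ∧ BB M (Sum.inl true) y then 1 else 0 := by
    rw [Fintype.sum_sum_type, Fintype.sum_sum_type, Fintype.sum_bool]
    simp only [hs, true_and, not_true_eq_false, false_and, if_false, ht, not_false_eq_true, BB_st,
      if_true, BB_sv, and_true]
    have h2 := Finset.card_filter_add_card_filter_not (s := (univ : Finset (Fin M.n)))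
      (p := fun v => Sum.inr (Sum.inl v) ∈ X)
    rw [Finset.card_univ, Fintype.card_fin] at h2
    rw [← Finset.card_filter]
    omega
  refine h1.trans ?_
  exact Finset.single_le_sum (f := fun x => ∑ y, if x ∈ X ∧ y ∉ X ∧ BB M x y then 1 else 0)
    (fun _ _ => Nat.zero_le _) (Finset.mem_univ (Sum.inl true))

/-- the cut of a set of vertices -/
def cutOf (K : Finset (Fin M.n)) : Set (VT M.n) :=
  {x | x = Sum.inl true ∨ ∃ v ∈ K, x = Sum.inr (Sum.inl v)}

theorem red_cutOf (h : IsAdj M) (K : Finset (Fin M.n)) :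
    outCount (RR M) (cutOf K) ≤ cost M.f K := by
  classical
  have hs : (Sum.inl true : VT M.n) ∈ cutOf K := Or.inl rfl
  have ht : (Sum.inl false : VT M.n) ∉ cutOf K := by simp [cutOf]
  have hv : ∀ v : Fin M.n, (Sum.inr (Sum.inl v) : VT M.n) ∈ cutOf K ↔ v ∈ K := by
    intro v; simp [cutOf]
  have hm : ∀ m, (Sum.inr (Sum.inr m) : VT M.n) ∉ cutOf K := by
    intro m; simp [cutOf]
  rw [outCount_eq_sum, Fintype.sum_sum_type, Fintype.sum_sum_type]
  have z1 : (∑ b : Bool, ∑ y, if (Sum.inl b : VT M.n) ∈ cutOf K ∧ y ∉ cutOf K ∧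
      RR M (Sum.inl b) y then 1 else 0) = 0 := by
    refine Finset.sum_eq_zero fun b _ => Finset.sum_eq_zero fun y _ => ?_
    cases b
    · simp [ht]
    · simp [RR_sx]
  have z2 : (∑ m : Bool × Fin M.n × Fin M.n, ∑ y,
      if (Sum.inr (Sum.inr m) : VT M.n) ∈ cutOf K ∧ y ∉ cutOf K ∧
      RR M (Sum.inr (Sum.inr m)) y then 1 else 0) = 0 := by
    refine Finset.sum_eq_zero fun b _ => Finset.sum_eq_zero fun y _ => ?_
    simp [hm]
  rw [z1, z2, zero_add, add_zero]
  unfold cost
  rw [← Finset.sum_filter_add_sum_filter_not (univ : Finset (Fin M.n)) (fun v => v ∈ K)]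
  have z3 : (∑ v ∈ univ.filter (fun v : Fin M.n => v ∉ K), ∑ y,
      if (Sum.inr (Sum.inl v) : VT M.n) ∈ cutOf K ∧ y ∉ cutOf K ∧
      RR M (Sum.inr (Sum.inl v)) y then 1 else 0) = 0 := by
    refine Finset.sum_eq_zero fun v hv' => Finset.sum_eq_zero fun y _ => ?_
    rw [Finset.mem_filter] at hv'
    simp [hv, hv'.2]
  rw [z3, add_zero]
  have z4 : univ.filter (fun v : Fin M.n => v ∈ K) = K := by ext; simp
  rw [z4]
  refine Finset.sum_le_sum fun v hvK => ?_
  rw [Fintype.sum_sum_type, Fintype.sum_sum_type, Fintype.sum_bool]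
  have y1 := RR_xs (M := M) (Sum.inr (Sum.inl v))
  have y2 := RR_vt (M := M) v
  have y5 : ∀ x : Bool × Fin M.n × Fin M.n, RR M (Sum.inr (Sum.inl v)) (Sum.inr (Sum.inr x)) ↔
      v = x.2.1 ∧ okp M x.1 x.2.1 x.2.2 := fun x => RR_vm v x.1 x.2.1 x.2.2
  simp only [y1, y2, and_false, if_false, zero_add, hv, hvK, true_and, hm, not_false_eq_true,
    RR_vv h, y5]
  have y3 : (∑ x : Bool × Fin M.n × Fin M.n, if v = x.2.1 ∧ okp M x.1 x.2.1 x.2.2 then 1 else 0)
      = (∑ w, if M.f v w = false then 1 else 0) + M.n := by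
    rw [Fintype.sum_prod_type, Fintype.sum_bool, Fintype.sum_prod_type, Fintype.sum_prod_type]
    have y4 : ∀ c, (∑ x, ∑ y, if v = x ∧ okp M c x y then 1 else 0) =
        ∑ y, if okp M c v y then 1 else 0 := by
      intro c
      rw [Finset.sum_eq_single v]
      · simp
      · intro b _ hb
        refine Finset.sum_eq_zero fun y _ => ?_
        rw [if_neg]
        rintro ⟨rfl, _⟩
        exact hb rfl
      · simp
    simp only [y4]
    simp [okp, add_comm]
  rw [y3]

theorem blue_cutOf (K : Finset (Fin M.n)) :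
    outCount (BB M) (cutOf K) ≤ M.n + 1 - K.card := by
  classical
  have hs : (Sum.inl true : VT M.n) ∈ cutOf K := Or.inl rfl
  have ht : (Sum.inl false : VT M.n) ∉ cutOf K := by simp [cutOf]
  have hv : ∀ v : Fin M.n, (Sum.inr (Sum.inl v) : VT M.n) ∈ cutOf K ↔ v ∈ K := by
    intro v; simp [cutOf]
  have hm : ∀ m, (Sum.inr (Sum.inr m) : VT M.n) ∉ cutOf K := by
    intro m; simp [cutOf]
  rw [outCount_eq_sum, Fintype.sum_sum_type, Fintype.sum_sum_type, Fintype.sum_bool]
  have z2 : (∑ m : Bool × Fin M.n × Fin M.n, ∑ y,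
      if (Sum.inr (Sum.inr m) : VT M.n) ∈ cutOf K ∧ y ∉ cutOf K ∧
      BB M (Sum.inr (Sum.inr m)) y then 1 else 0) = 0 := by
    refine Finset.sum_eq_zero fun b _ => Finset.sum_eq_zero fun y _ => ?_
    simp [hm]
  have z3 : (∑ v : Fin M.n, ∑ y,
      if (Sum.inr (Sum.inl v) : VT M.n) ∈ cutOf K ∧ y ∉ cutOf K ∧
      BB M (Sum.inr (Sum.inl v)) y then 1 else 0) = 0 := by
    refine Finset.sum_eq_zero fun v _ => Finset.sum_eq_zero fun y _ => ?_
    rw [if_neg]
    rintro ⟨_, h2, h3⟩
    refine BB_vx v y ?_ h3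
    rintro rfl
    exact h2 hs
  have z4 : (∑ y, if (Sum.inl false : VT M.n) ∈ cutOf K ∧ y ∉ cutOf K ∧
      BB M (Sum.inl false) y then 1 else 0) = 0 := by
    refine Finset.sum_eq_zero fun y _ => ?_
    simp [ht]
  rw [z2, z3, z4]
  simp only [add_zero]
  rw [Fintype.sum_sum_type, Fintype.sum_sum_type, Fintype.sum_bool]
  simp only [hs, ht, hv, hm, true_and, not_true_eq_false, false_and, if_false, not_false_eq_true,
    BB_st, BB_sv, BB_sm, if_true, and_true, and_false, Finset.sum_const_zero, add_zero, zero_add]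
  rw [← Finset.card_filter]
  have h2 := Finset.card_filter_add_card_filter_not (s := (univ : Finset (Fin M.n)))
    (p := fun v => v ∈ K)
  rw [Finset.card_univ, Fintype.card_fin] at h2
  have z5 : univ.filter (fun v : Fin M.n => v ∈ K) = K := by ext; simp
  rw [z5] at h2
  omega

/-- Correctness on the vertex type. -/
theorem core (h : IsAdj M) (k : ℕ) :
    STCut (fun x y : VT M.n => lcol M (lab x) (lab y)) (Sum.inl true) (Sum.inl false)
      (2 * M.n * k + k - k * k) (M.n + 1 - k) ↔ HasK M.f k := by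
  classical
  constructor
  · rintro ⟨X, hs, ht, h1, h2⟩
    have e1 := (cost_le h X ht).trans h1
    have e2 := (blue_ge X hs ht).trans h2
    set A := univ.filter (fun v : Fin M.n => (Sum.inr (Sum.inl v) : VT M.n) ∈ X) with hA
    have hn : A.card ≤ M.n := by simpa using Finset.card_le_univ A
    obtain ⟨h3, h4⟩ := clique_of_cost (k := k) h.2 (by omega) e1
    exact ⟨A, h3, h4⟩
  · rintro ⟨K, hK, hK2⟩
    refine ⟨cutOf K, Or.inl rfl, by simp [cutOf], ?_, ?_⟩
    · refine (red_cutOf h K).trans ?_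
      rw [cost_clique h.2 hK2, hK]
    · rw [← hK]
      exact blue_cutOf K

theorem red_iff (I : LMat Bool × ℕ) (h : IsAdj I.1) : RedBlueCut (red I) ↔ CliqueM I := by
  obtain ⟨M, k⟩ := I
  rw [redBlueCut_iff]
  obtain ⟨e, he⟩ := R671.exists_equiv (vsL M.n) (vsL_nodup M.n) (lab : VT M.n → Lab)
    lab_injective mem_vsL
  refine Iff.trans ?_ (core h k)
  refine STCut.equiv_iff e (fun x y => ?_) ?_ ?_
  · rw [he, he]
    rfl
  · apply lab_injective
    rw [he]
    rfl
  · apply lab_injective
    rw [he]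
    rfl

theorem npHard_redBlueCut : NPHardP RedBlueCut :=
  (hardPr_cliqueM.trans (Pr' := fun _ => True) red_poly (fun _ _ => trivial)
    (fun I h => (red_iff I h).symm)).toHardI.toNPHardP

end Red

/-- **The unweighted red-blue `s`-`t` cut problem in undirected graphs is `NP`-complete.** -/
theorem result : InNPP RedBlueCut ∧ NPHardP RedBlueCut := ⟨inNPP_redBlueCut, npHard_redBlueCut⟩

end Pool.Agent.Results.MP_ad21dd_lc.RedBlueCut
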